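import Pool.Agent.PFD.StmtsD6b

/-!
# Row ALT of squad PFD (MP_6a3f1a_al)
-/

set_option autoImplicit false
set_option linter.unusedSectionVars false

open scoped BigOperators

noncomputable section

namespace Pool.Agent.PFD.D6.H62

open Pool.Agent.PFC
open Pool.Agent.PFC.B5a (FvtStmt TrsStmt BkiStmt FdbStmt Du)

section

variable {F V E A Ω : Type} [Field F] [CommGroup V] [Fintype V] [Group E] [Ring A] [Algebra F A]
  [Fintype Ω] [MulAction (V × V) Ω] {φ : E →* MulAut V} {W : Subgroup V} {α : V →* A}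
  {q : A →ₗ[F] A} {b : Ω → A} {d : Ω → (A →ₗ[F] F)}

theorem bi_eq (v h : V) (x : A) : bi F α (v, h) x = α v * (x * α h⁻¹) := rfl

theorem a_l (v : V) : α v⁻¹ * α v = 1 := by rw [← map_mul, inv_mul_cancel, map_one]

theorem a_r (v : V) : α v * α v⁻¹ = 1 := by rw [← map_mul, mul_inv_cancel, map_one]

theorem d_apply (hf : Fq F φ W α q b d) (v h : V) (ω : Ω) (x : A) :
    d (((v, h) : V × V) • ω) x = d ω (α v⁻¹ * x * α h) := by
  have h1 := hf.ed (v, h) ω (α v⁻¹ * x * α h)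
  rw [bi_eq] at h1
  rw [← h1]
  congr 1
  calc x = α v * α v⁻¹ * x * (α h * α h⁻¹) := by rw [a_r, a_r, one_mul, mul_one]
    _ = _ := by noncomm_ring

theorem b_apply (hf : Fq F φ W α q b d) (v h : V) (ω : Ω) :
    b (((v, h) : V × V) • ω) = α v * (b ω * α h⁻¹) := by
  rw [hf.eb (v, h) ω, bi_eq]

/-- `y ω` -/
def yy (d : Ω → (A →ₗ[F] F)) {m : ℕ} (c c' : Fin m → A) (ω : Ω) : A := ∑ k, d ω (c k) • c' k

theorem lam_yy (lam : A →ₗ[F] F) (d : Ω → (A →ₗ[F] F)) {m : ℕ} (c c' : Fin m → A)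
    (hc : Du F lam c c') (ω : Ω) (x : A) : lam (yy d c c' ω * x) = d ω x := by
  unfold yy
  rw [Finset.sum_mul, map_sum]
  conv_rhs => rw [← hc x, map_sum]
  refine Finset.sum_congr rfl fun k _ => ?_
  rw [smul_mul_assoc, map_smul, map_smul, smul_eq_mul, smul_eq_mul, mul_comm]

theorem yy_apply (hf : Fq F φ W α q b d) (lam : A →ₗ[F] F)
    (hsym : ∀ a b, lam (a * b) = lam (b * a)) (hnd : ∀ a, (∀ b, lam (a * b) = 0) → a = 0)
    {m : ℕ} (c c' : Fin m → A) (hc : Du F lam c c') (v h : V) (ω : Ω) :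
    yy d c c' (((v, h) : V × V) • ω) = α h * yy d c c' ω * α v⁻¹ := by
  rw [← sub_eq_zero]
  apply hnd
  intro x
  rw [sub_mul, map_sub, lam_yy lam d c c' hc, d_apply hf]
  have h1 : α h * yy d c c' ω * α v⁻¹ * x = α h * (yy d c c' ω * (α v⁻¹ * x)) := by
    noncomm_ring
  have h2 : yy d c c' ω * (α v⁻¹ * x) * α h = yy d c c' ω * (α v⁻¹ * x * α h) := by
    noncomm_ring
  rw [h1, hsym, h2, lam_yy lam d c c' hc, sub_self]

end

theorem alt : AltStmt := by
  intro omt trs F V E A Ω _ _ _ _ _ _ _ _ _ φ W α lam q b d hW hsym hnd hf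
  obtain ⟨O, _, _, s, p, hps, hp, hcov, hsum, hfix⟩ := omt V E Ω φ (fun ω => by
    obtain ⟨e, R, -, h⟩ := hf.st ω
    exact ⟨e, R, h⟩)
  refine ⟨∑ o, (d (s o)).smulRight (b (s o)), ?_, ?_⟩
  · intro x
    have e1 : ∀ z : A, (∑ o, (d (s o)).smulRight (b (s o))) z = ∑ o, d (s o) z • b (s o) := by
      intro z
      rw [LinearMap.sum_apply]
      rfl
    rw [← hf.sum x, hsum, Finset.sum_comm]
    rw [← Equiv.sum_comp (Equiv.inv V)]
    refine Finset.sum_congr rfl fun h _ => ?_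
    rw [e1, Finset.sum_mul]
    refine Finset.sum_congr rfl fun o _ => ?_
    rw [d_apply hf, b_apply hf, Equiv.inv_apply, inv_one, map_one, one_mul, one_mul,
      smul_mul_assoc, inv_inv]
  · intro m c c' hc ζ hζ
    set U : Ω → A := fun ω => b ω * ζ * yy d c c' ω with hU
    have hU1 : ∀ (v h : V) (ω : Ω), U (((v, h) : V × V) • ω) = cj F α v (U ω) := by
      intro v h ω
      have e1 : cj F α v (U ω) = α v * (U ω * α v⁻¹) := rfl
      rw [e1, hU]
      show b (((v, h) : V × V) • ω) * ζ * yy d c c' (((v, h) : V × V) • ω) = _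
      rw [b_apply hf, yy_apply hf lam hsym hnd c c' hc]
      have e2 : α v * (b ω * α h⁻¹) * ζ * (α h * yy d c c' ω * α v⁻¹) =
          α v * (b ω * (α h⁻¹ * (ζ * α h)) * yy d c c' ω * α v⁻¹) := by noncomm_ring
      rw [e2, hζ h, ← mul_assoc (α h⁻¹), a_l, one_mul]
    have hU2 : ∀ (v : V) (o : O), U (s (v • o)) = cj F α v (U (s o)) := by
      intro v o
      obtain ⟨h, hh⟩ := hcov (((v, 1) : V × V) • s o)
      rw [hp, hps] at hh
      rw [← hU1 v 1 (s o), hh, hU1, map_one]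
      rfl
    have hsum2 : ∑ k, (∑ o, (d (s o)).smulRight (b (s o))) (c k) * ζ * c' k =
        ∑ o ∈ Finset.univ, U (s o) := by
      have e1 : ∀ k, (∑ o, (d (s o)).smulRight (b (s o))) (c k) * ζ * c' k =
          ∑ o, b (s o) * ζ * (d (s o) (c k) • c' k) := by
        intro k
        rw [LinearMap.sum_apply, Finset.sum_mul, Finset.sum_mul]
        refine Finset.sum_congr rfl fun o _ => ?_
        show d (s o) (c k) • b (s o) * ζ * c' k = _
        rw [smul_mul_assoc, smul_mul_assoc, mul_smul_comm]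
      rw [Finset.sum_congr rfl fun k _ => e1 k, Finset.sum_comm]
      refine Finset.sum_congr rfl fun o _ => ?_
      rw [← Finset.mul_sum]
      rfl
    rw [hsum2]
    refine trs F V A O (cj F α) ⊤ (fun o => U (s o)) Finset.univ (fun o _ h _ => Finset.mem_univ _)
      ?_ (fun h _ o => hU2 h o)
    intro o _ hfx
    obtain ⟨e, R, hR, hst⟩ := hf.st (s o)
    have h1 := hfix (s o) e R hst (fun v => by rw [hps]; exact hfx v (Subgroup.mem_top v))
    rw [h1, top_le_iff] at hR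
    exact hW hR

end Pool.Agent.PFD.D6.H62
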